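import Pool.Agent.Y867.WR.Sharp

/-!
# The order of almost all integers in Waring's problem for almost all real polynomials is `k + 1`

The proof of the upper bound is by the circle method, with an average over the lower coefficients (see the files
`Pool.Agent.Y867.WR`); the lower bound is an elementary count. From the starting files and from colleagues: Weyl
differencing (`Pool.Agent.TH181.MW`, `Pool.Agent.TH181.MX`), Vinogradov's lemma (`Pool.Agent.H807R2.Dav`), the bound for
the number of divisors (`Pool.Agent.Helper112.Arith`).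
From Mathlib: `Fin k → ℝ` carries the Lebesgue measure `MeasureTheory.volume`, and `∀ᵐ b : Fin k → ℝ` is: for all `b`
outside a null set; `⌊x⌋` is the integer part of `x`; `Set.ncard` is the number of the elements of a finite set.
-/

set_option autoImplicit false

namespace Pool.Agent.Results.MP_45c923_nt.AlmostAllOrder

/-- The integer `N` is a sum of `s` positive integers of the form `⌊f(n)⌋` with `n ≥ 1`, where
`f(x) = a x ^ k + b (k - 1) x ^ (k - 1) + ... + b 1 x + b 0`. -/
def IsSum (k : ℕ) (a : ℝ) (b : Fin k → ℝ) (s N : ℕ) : Prop :=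
  ∃ x : Fin s → ℕ, (∀ i, 1 ≤ x i ∧ 0 < ⌊a * (x i : ℝ) ^ k + ∑ j : Fin k, b j * (x i : ℝ) ^ (j : ℕ)⌋) ∧
    ∑ i, ⌊a * (x i : ℝ) ^ k + ∑ j : Fin k, b j * (x i : ℝ) ^ (j : ℕ)⌋ = (N : ℤ)

/-- Let `k ≥ 2` and let `a` be a real number with `a > 1 / k!` (for instance `a = 1`). For almost every choice of the
lower coefficients `b 0, ..., b (k - 1)` the number of the values of `f(x) = a x ^ k + ∑ j, b j x ^ j` needed to
represent almost all integers is exactly `k + 1`: all the integers up to `Y`, with at most `C Y ^ (1 - κ)` exceptions,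
are sums of `k + 1` positive integers of the form `⌊f(n)⌋`, where `κ > 0`, while a positive proportion of the integers
are not sums of `k` of them. -/
theorem result (k : ℕ) (hk : 2 ≤ k) (a : ℝ) (hak : 1 < a * (k.factorial : ℝ)) :
    ∀ᵐ b : Fin k → ℝ,
      (∃ κ : ℝ, 0 < κ ∧ ∃ C : ℝ, ∀ Y : ℕ, 1 ≤ Y →
        (Set.ncard {N : ℕ | N ≤ Y ∧ ¬ IsSum k a b (k + 1) N} : ℝ) ≤ C * (Y : ℝ) ^ (1 - κ)) ∧
      (∃ c : ℝ, 0 < c ∧ ∃ Y₀ : ℕ, ∀ Y : ℕ, Y₀ ≤ Y →
        c * (Y : ℝ) ≤ (Set.ncard {N : ℕ | N ≤ Y ∧ ¬ IsSum k a b k N} : ℝ)) := by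
  have ha : 0 < a := by
    have hf : (0 : ℝ) < (k.factorial : ℝ) := by exact_mod_cast Nat.factorial_pos k
    by_contra h
    have : a * (k.factorial : ℝ) ≤ 0 := mul_nonpos_of_nonpos_of_nonneg (not_lt.mp h) hf.le
    linarith
  filter_upwards [Pool.Agent.Y867.WR.good_ae k hk a ha] with b hb
  exact ⟨Pool.Agent.Y867.WR.main2 k hk a ha b hb, Pool.Agent.Y867.WR.main3 k (by omega) a hak b⟩

end Pool.Agent.Results.MP_45c923_nt.AlmostAllOrder
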