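import Pool.Agent.Y867.WS.SaI
import Pool.Agent.Y867.WS.SaJ

/-! # Waring's problem with shifts, almost all shifts: the order is `k + O(log k)`

For `k ≥ 2`, `s ≥ k + 2 + ⌈log₂ k⌉` and almost every `μ ∈ ℝ ^ s`: every large real `τ` is within
`τ ^ (-1/(8k(k+1)))` of some `(x₁ - μ₁) ^ k + ⋯ + (x_s - μ_s) ^ k` with natural numbers
`x_l > μ_l`, and every large integer `n` is of the form `⌊(x₁ - μ₁) ^ k + ⋯ + (x_s - μ_s) ^ k⌋`.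
With at most `k` variables the first property fails for every choice of the shifts. -/

set_option autoImplicit false

open MeasureTheory

namespace Pool.Agent.Results.MP_45c923_nt.AlmostAllShiftsOrder

theorem result (k : ℕ) (hk : 2 ≤ k) :
    (∀ s : ℕ, k + 2 + Nat.clog 2 k ≤ s → ∀ᵐ μ : Fin s → ℝ,
      (∃ T : ℝ, ∀ τ : ℝ, T ≤ τ → ∃ x : Fin s → ℕ, (∀ l, μ l < x l) ∧
        |∑ l, ((x l : ℝ) - μ l) ^ k - τ| < τ ^ (-(1 / (8 * (k : ℝ) * (k + 1))))) ∧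
      (∃ N : ℕ, ∀ n : ℕ, N ≤ n → ∃ x : Fin s → ℕ, (∀ l, μ l < x l) ∧
        ⌊∑ l, ((x l : ℝ) - μ l) ^ k⌋₊ = n)) ∧
    (∀ s : ℕ, s ≤ k → ∀ μ : Fin s → ℝ, ∀ κ : ℝ, 0 < κ → ∀ T : ℝ,
      ∃ τ : ℝ, T ≤ τ ∧ ∀ x : Fin s → ℕ, (∀ l, μ l < x l) →
        τ ^ (-κ) ≤ |∑ l, ((x l : ℝ) - μ l) ^ k - τ|) := by
  refine ⟨fun s hs => ?_, fun s hs μ κ hκ T =>
    Pool.Agent.Y867.WS.lower_s k s (by omega) hs μ κ hκ T⟩
  obtain ⟨j, rfl⟩ : ∃ j, k = j + 2 := ⟨k - 2, by omega⟩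
  obtain ⟨t, rfl⟩ : ∃ t, s = j + 4 + t := ⟨s - (j + 4), by omega⟩
  have ht : j + 2 ≤ 2 ^ t := by
    have h1 : Nat.clog 2 (j + 2) ≤ t := by omega
    exact (Nat.le_pow_clog (by norm_num) _).trans (Nat.pow_le_pow_right (by norm_num) h1)
  filter_upwards [Pool.Agent.Y867.WS.main_real j t ht] with μ h1
  have h2 : (8 : ℝ) * ((j + 2 : ℕ) : ℝ) * (((j + 2 : ℕ) : ℝ) + 1) = 8 * ((j : ℝ) + 2) * (j + 3) := by
    push_cast
    ring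
  rw [h2]
  exact ⟨h1, Pool.Agent.Y867.WC.int_parts _ _ _ (by positivity) h1⟩

end Pool.Agent.Results.MP_45c923_nt.AlmostAllShiftsOrder
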