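import Pool.Agent.Results.MP_45c923_nt.AlmostAllOrder
import Pool.Agent.Y854.GM.Few
import Pool.Agent.Y854.GM.Win

/-!
# Every integer in short windows is a sum of `k + 1` integer parts of values of a random polynomial

Let `k ≥ 2` and `a > 1 / k!` (for instance `a = 1`). For almost every choice of the lower coefficients of
`f(x) = a x ^ k + b_{k-1} x ^ (k - 1) + … + b_0` there is `κ > 0` with the following property. Let `v ≥ 1` be a sequence with
exponent of convergence at most `τ` (for `v_n = n ^ c` this is `1 / c`, for `v_n = c ^ n` or `n!` it is `0`) and `θ < 1`. For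
all `α > 0` outside a set of Hausdorff dimension at most `(1 - κ + τ) / (1 - θ)` and all but finitely many `n`, EVERY integer
`N` with `|N - α v_n| ≤ v_n ^ θ` is a sum of `k + 1` positive integers `⌊f(x)⌋`, `x ≥ 1`. In longer windows there are few
exceptions.
-/

set_option autoImplicit false

open Finset Filter Topology
open scoped ENNReal

namespace Pool.Agent.Results.MP_45c923_nt.EveryNumberInWindows

open AlmostAllOrder (IsSum)

/-- the exponent of convergence of the sequence `v` is at most `τ` -/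
def ExpLe (v : ℕ → ℝ) (τ : ℝ) : Prop := ∀ t : ℝ, τ < t → Summable (fun n : ℕ => (v n) ^ (-t))

open Classical in
lemma count {k : ℕ} {a : ℝ} {b : Fin k → ℝ} {κ C : ℝ} (h : ∀ Y : ℕ, 1 ≤ Y →
      (Set.ncard {N : ℕ | N ≤ Y ∧ ¬ IsSum k a b (k + 1) N} : ℝ) ≤ C * (Y : ℝ) ^ (1 - κ))
    (P : Set ℕ) (hP : ∀ N ∈ P, ¬ IsSum k a b (k + 1) N) {s : ℝ} (hs : 1 - κ ≤ s) (hC : 0 ≤ C) (X : ℕ) (hX : 1 ≤ X) :
    (((Ioc 0 X).filter (fun t => t ∈ P)).card : ℝ) ≤ C * (X : ℝ) ^ s := by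
  have hX1 : (1 : ℝ) ≤ X := by exact_mod_cast hX
  have h1 : ((Ioc 0 X).filter (fun t => t ∈ P)).card ≤ Set.ncard {N : ℕ | N ≤ X ∧ ¬ IsSum k a b (k + 1) N} := by
    rw [← Set.ncard_coe_finset]
    apply Set.ncard_le_ncard _ ((Set.finite_Iic X).subset (fun N hN => hN.1))
    intro N hN
    rw [mem_coe, mem_filter, mem_Ioc] at hN
    exact ⟨hN.1.2, hP N hN.2⟩
  calc (((Ioc 0 X).filter (fun t => t ∈ P)).card : ℝ)
      ≤ (Set.ncard {N : ℕ | N ≤ X ∧ ¬ IsSum k a b (k + 1) N} : ℝ) := by exact_mod_cast h1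
    _ ≤ C * (X : ℝ) ^ (1 - κ) := h X hX
    _ ≤ C * (X : ℝ) ^ s := mul_le_mul_of_nonneg_left (Real.rpow_le_rpow_of_exponent_le hX1 hs) hC

/-- **Theorem.** Let `k ≥ 2` and `a > 1 / k!`. For almost every `b` there is `κ` with `0 < κ ≤ 1` such that for every
sequence `v ≥ 1` of exponent of convergence at most `τ ≥ 0` and `θ < 1`: (1) there is a set `E` of Hausdorff dimension at
most `(1 - κ + τ) / (1 - θ)` such that for each `α > 0` outside `E` and all but finitely many `n`, every integer `N ≥ 0`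
with `|N - α v_n| ≤ v_n ^ θ` is a sum of `k + 1` positive integers `⌊f(x)⌋`, `x ≥ 1`,
`f(x) = a x ^ k + ∑ j, b j x ^ j`; (2) for `γ ≤ 1 - κ` there is `E` of dimension at most `(1 - κ - γ + τ) / (1 - θ)` such that
for each `α > 0` outside `E` and all but finitely many `n`, all but at most `v_n ^ γ` of these integers `N` are such sums.
The sequences `v_n = (n + 1) ^ c` and `v_n = c ^ n` have exponent of convergence at most `1 / c` and `0`. -/
theorem result :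
    (∀ (k : ℕ) (_ : 2 ≤ k) (a : ℝ) (_ : 1 < a * (k.factorial : ℝ)), ∀ᵐ b : Fin k → ℝ, ∃ κ : ℝ, 0 < κ ∧ κ ≤ 1 ∧
      ∀ (v : ℕ → ℝ) (τ θ : ℝ), (∀ n, 1 ≤ v n) → 0 ≤ τ → ExpLe v τ → θ < 1 →
        (∃ E : Set ℝ, dimH E ≤ ENNReal.ofReal ((1 - κ + τ) / (1 - θ)) ∧
          ∀ α : ℝ, 0 < α → α ∉ E → ∃ n₀ : ℕ, ∀ n : ℕ, n₀ ≤ n → ∀ N : ℕ, |(N : ℝ) - α * v n| ≤ (v n) ^ θ →
            IsSum k a b (k + 1) N) ∧
        (∀ γ : ℝ, γ ≤ 1 - κ →
          ∃ E : Set ℝ, dimH E ≤ ENNReal.ofReal ((1 - κ - γ + τ) / (1 - θ)) ∧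
          ∀ α : ℝ, 0 < α → α ∉ E → ∃ n₀ : ℕ, ∀ n : ℕ, n₀ ≤ n →
            ({N : ℕ | |(N : ℝ) - α * v n| ≤ (v n) ^ θ ∧ ¬ IsSum k a b (k + 1) N}.ncard : ℝ) ≤ (v n) ^ γ)) ∧
    (∀ c : ℝ, 0 < c → ExpLe (fun n : ℕ => ((n : ℝ) + 1) ^ c) (1 / c)) ∧
    (∀ c : ℝ, 1 < c → ExpLe (fun n : ℕ => c ^ n) 0) := by
  classical
  refine ⟨fun k hk a hak => ?_, fun κ hκ => Pool.Agent.Y854.GM.expLe_pow κ hκ,
    fun κ hκ => Pool.Agent.Y854.GM.expLe_geom κ hκ⟩
  filter_upwards [AlmostAllOrder.result k hk a hak] with b hb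
  obtain ⟨⟨κ₀, hκ₀, C₀, h₀⟩, -⟩ := hb
  obtain ⟨κ, hκ⟩ : ∃ κ, κ = min κ₀ 1 := ⟨_, rfl⟩
  have hκ0 : 0 < κ := by
    rw [hκ]
    exact lt_min hκ₀ one_pos
  have hκ1 : κ ≤ 1 := by
    rw [hκ]
    exact min_le_right _ _
  obtain ⟨C, hC⟩ : ∃ C, C = max C₀ 0 := ⟨_, rfl⟩
  have hC0 : 0 ≤ C := by
    rw [hC]
    exact le_max_right _ _
  have h : ∀ Y : ℕ, 1 ≤ Y → (Set.ncard {N : ℕ | N ≤ Y ∧ ¬ IsSum k a b (k + 1) N} : ℝ) ≤ C * (Y : ℝ) ^ (1 - κ) := by
    intro Y hY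
    have hY1 : (1 : ℝ) ≤ Y := by exact_mod_cast hY
    calc (Set.ncard {N : ℕ | N ≤ Y ∧ ¬ IsSum k a b (k + 1) N} : ℝ) ≤ C₀ * (Y : ℝ) ^ (1 - κ₀) := h₀ Y hY
      _ ≤ C * (Y : ℝ) ^ (1 - κ₀) := mul_le_mul_of_nonneg_right (by rw [hC]; exact le_max_left _ _) (by positivity)
      _ ≤ C * (Y : ℝ) ^ (1 - κ) := by
          apply mul_le_mul_of_nonneg_left _ hC0
          apply Real.rpow_le_rpow_of_exponent_le hY1
          have : κ ≤ κ₀ := by
            rw [hκ]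
            exact min_le_left _ _
          linarith
  refine ⟨κ, hκ0, hκ1, fun v τ θ hv hτ hE hθ1 => ⟨?_, fun γ hγ => ?_⟩⟩
  · obtain ⟨E, h3, h4⟩ := Pool.Agent.Y854.GM.win_nat {N : ℕ | ¬ IsSum k a b (k + 1) N} hv hτ hE
      (s := 1 - κ) (by linarith) hθ1 (fun ε hε => by
        refine ⟨C, fun X hX => le_trans (le_of_eq ?_)
          (count h {N : ℕ | ¬ IsSum k a b (k + 1) N} (fun N hN => hN) (by linarith) hC0 X hX)⟩
        congr)
    refine ⟨E, h3, fun α hα hαE => ?_⟩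
    obtain ⟨n₀, hn⟩ := h4 α hα hαE
    refine ⟨n₀, fun n hn1 N hN => ?_⟩
    have h5 := (hn n hn1 N hN).2
    by_contra hcon
    exact h5 hcon
  · -- the number `0` is outside the window for large `n`
    have hvp : ∀ n, 0 < v n := fun n => lt_of_lt_of_le one_pos (hv n)
    have htv : Tendsto v atTop atTop := Pool.Agent.Y854.GM.tendsto_of_expLe hvp hτ hE
    have h1θ : 0 < 1 - θ := by linarith
    have hvθ : Tendsto (fun n => (v n) ^ (1 - θ)) atTop atTop := (tendsto_rpow_atTop h1θ).comp htv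
    obtain ⟨E, h3, h4⟩ := Pool.Agent.Y854.GM.few_nat {N : ℕ | N ≠ 0 ∧ ¬ IsSum k a b (k + 1) N} (fun h0 => h0.1 rfl)
      γ (s := 1 - κ) hγ hv hτ hE (by linarith) hθ1 (fun ε hε => by
        refine ⟨C, fun X hX => le_trans (le_of_eq ?_)
          (count h {N : ℕ | N ≠ 0 ∧ ¬ IsSum k a b (k + 1) N} (fun N hN => hN.2) (by linarith) hC0 X hX)⟩
        congr)
    refine ⟨E, h3, fun α hα hαE => ?_⟩
    obtain ⟨n₀, hn⟩ := h4 α hα hαE
    obtain ⟨n₁, hn₁⟩ := (hvθ.eventually (eventually_gt_atTop (1 / α))).exists_forall_of_atTop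
    refine ⟨max n₀ n₁, fun n hn2 => le_trans (Nat.cast_le.2 (Set.ncard_le_ncard ?_ ?_))
      (hn n ((le_max_left _ _).trans hn2))⟩
    · rintro N ⟨h5, h6⟩
      refine ⟨⟨?_, h6⟩, h5⟩
      rintro rfl
      rw [Nat.cast_zero, zero_sub, abs_neg, abs_of_pos (mul_pos hα (hvp n))] at h5
      have h7 := hn₁ n ((le_max_right _ _).trans hn2)
      have h8 : v n = (v n) ^ (1 - θ) * (v n) ^ θ := by
        rw [← Real.rpow_add (hvp n)]
        rw [show 1 - θ + θ = 1 by ring, Real.rpow_one]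
      have h9 : 0 < (v n) ^ θ := Real.rpow_pos_of_pos (hvp n) θ
      have h10 : (v n) ^ θ < α * v n := by
        calc (v n) ^ θ = α * (1 / α) * (v n) ^ θ := by field_simp
          _ < α * (v n) ^ (1 - θ) * (v n) ^ θ :=
              mul_lt_mul_of_pos_right (mul_lt_mul_of_pos_left h7 hα) h9
          _ = α * ((v n) ^ (1 - θ) * (v n) ^ θ) := by ring
          _ = α * v n := by rw [← h8]
      linarith
    · refine (Set.finite_Iic ⌊α * v n + (v n) ^ θ⌋₊).subset ?_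
      rintro m ⟨-, h⟩
      apply Nat.le_floor
      linarith [(abs_le.1 h).2]

end Pool.Agent.Results.MP_45c923_nt.EveryNumberInWindows
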