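import Mathlib
import Pool.Agent.Y434.WR.Circ
import Pool.Agent.Y847.RE.Min
import Pool.Agent.Y210.RE.Low
import Pool.Agent.Y302.RE.Blk
import Pool.Agent.Y220.RE.Mv
import Pool.Agent.Y935.RE.Main
import Pool.Agent.Y935.RO.Low

/-!
# The order of magnitude of Waring's function for almost all real exponents

For a real exponent `c > 1` let `G(c)` be the least `m` such that every large natural number is a sum of at most `m`
terms `⌊x ^ c⌋`, `x ≥ 1` (for an integer `c` this is Waring's function). By counting, `G(c) ≥ c`. We show that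
`c < G(c) < 4 c log 2 + 5` for almost all real `c > 1` (Lebesgue measure), so that the order of magnitude of `G(c)`
is `c`, as conjectured for integers; the exceptional set (a null set) may contain all integers.

The upper bound is the theorem on Waring's problem with almost all real exponents in the library files
`Pool.Agent.Y935.RE`, `Pool.Agent.Y434.WR`, `Pool.Agent.Y847.RE`, `Pool.Agent.Y210.RE`, `Pool.Agent.Y302.RE`,
`Pool.Agent.Y220.RE` (blocks of variables, mean over `c`, circle method).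
-/

set_option autoImplicit false

open MeasureTheory Filter

namespace Pool.Agent.Results.MP_45c923_nt.OrderAlmostAllExponents

/-- Every large natural number is a sum of at most `m` terms `⌊x ^ c⌋`, `x ≥ 1` a natural number. -/
def Suff (c : ℝ) (m : ℕ) : Prop :=
  ∀ᶠ n : ℕ in atTop, ∃ t ≤ m, ∃ x : Fin t → ℕ, (∀ i, 1 ≤ x i) ∧ ∑ i, ⌊(x i : ℝ) ^ c⌋₊ = n

/-- The least `m` such that every large natural number is a sum of at most `m` terms `⌊x ^ c⌋` (and `0` if there is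
no such `m`). -/
noncomputable def G (c : ℝ) : ℕ := sInf {m : ℕ | Suff c m}

/-- **Main theorem.** For all real `c > 0` fewer than `c` terms do not suffice. For almost all real `c > 1`: `G c`
terms suffice, `c < G c < 4 c log 2 + 5`, and `G c ≤ 4 r + 1` for every `r` with `(1 - 1 / c) ^ r < 1 / 2`. -/
theorem result :
    (∀ c : ℝ, 0 < c → ∀ m : ℕ, Suff c m → c ≤ m) ∧
    ∀ᵐ c : ℝ, 1 < c → Suff c (G c) ∧ c < G c ∧ (G c : ℝ) < 4 * c * Real.log 2 + 5 ∧
      ∀ r : ℕ, (1 - 1 / c) ^ r < 1 / 2 → G c ≤ 4 * r + 1 := by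
  have hlow : ∀ c : ℝ, 0 < c → ∀ m : ℕ, Suff c m → c ≤ m := by
    intro c hc m hm
    by_contra hlt
    push Not at hlt
    exact Pool.Agent.Y935.RO.low c hc m hlt hm
  refine ⟨hlow, ?_⟩
  have hmain : ∀ k : ℕ, 1 ≤ k → ∀ᵐ c : ℝ, (k : ℝ) < c → c < k + 1 → ∀ r : ℕ,
      (1 - 1 / c) ^ r < 1 / 2 → Suff c (4 * r + 1) := by
    intro k hk
    obtain ⟨κ, hκ, h⟩ := Pool.Agent.Y935.RE.main Pool.Agent.Y434.WR.circ Pool.Agent.Y210.RE.low
      Pool.Agent.Y847.RE.min
      (Pool.Agent.Y220.RE.mv Pool.Agent.Y302.RE.ld Pool.Agent.Y302.RE.cnt) k hk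
    filter_upwards [h] with c hc
    intro hc1 hc2 r hr
    exact ((hc hc1 hc2 r (4 * r + 1) hr le_rfl).1).mono fun n hn => ⟨4 * r + 1, le_rfl, hn⟩
  have hall : ∀ᵐ c : ℝ, ∀ k : ℕ, 1 ≤ k → (k : ℝ) < c → c < k + 1 → ∀ r : ℕ,
      (1 - 1 / c) ^ r < 1 / 2 → Suff c (4 * r + 1) := by
    rw [ae_all_iff]
    intro k
    by_cases hk : 1 ≤ k
    · filter_upwards [hmain k hk] with c hc
      intro _
      exact hc
    · exact Eventually.of_forall fun c hk' => absurd hk' hk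
  have hint : ∀ᵐ c : ℝ, c ∉ Set.range (fun n : ℕ => (n : ℝ)) :=
    (Set.countable_range _).ae_notMem volume
  filter_upwards [hall, hint] with c hc hci
  intro hc1
  have hc0 : 0 < c := by linarith
  have hne : ∀ n : ℕ, (n : ℝ) ≠ c := fun n h => hci ⟨n, h⟩
  have hk1 : 1 ≤ ⌊c⌋₊ := Nat.le_floor (by push_cast; exact hc1.le)
  have hk2 : ((⌊c⌋₊ : ℕ) : ℝ) < c := lt_of_le_of_ne (Nat.floor_le hc0.le) (hne _)
  have hk3 : c < (⌊c⌋₊ : ℕ) + 1 := Nat.lt_floor_add_one c
  have hr : ∀ r : ℕ, (1 - 1 / c) ^ r < 1 / 2 → Suff c (4 * r + 1) := hc _ hk1 hk2 hk3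
  have hr0 := hr _ (Pool.Agent.Y935.RE.r_ok hc1)
  have hG : Suff c (G c) := Nat.sInf_mem (s := {m : ℕ | Suff c m}) ⟨_, hr0⟩
  have hGr : ∀ r : ℕ, (1 - 1 / c) ^ r < 1 / 2 → G c ≤ 4 * r + 1 := fun r h =>
    Nat.sInf_le (s := {m : ℕ | Suff c m}) (hr r h)
  refine ⟨hG, lt_of_le_of_ne (hlow c hc0 _ hG) (hne _).symm, ?_, hGr⟩
  have hl2 : 0 < Real.log 2 := Real.log_pos (by norm_num)
  have h1 := Nat.ceil_lt_add_one (a := c * Real.log 2) (by positivity)
  have h2 : ((G c : ℕ) : ℝ) ≤ ((4 * ⌈c * Real.log 2⌉₊ + 1 : ℕ) : ℝ) := by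
    exact_mod_cast hGr _ (Pool.Agent.Y935.RE.r_ok hc1)
  push_cast at h2
  linarith

end Pool.Agent.Results.MP_45c923_nt.OrderAlmostAllExponents
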